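import Pool.Agent.T9h37.ES.Main

/-!
# The conjecture of Beilinson for the higher Chow groups of the smooth varieties generated by abelian varieties
# whose simple factors have an exceptional slope

Over an algebraic closure of the field with `p` elements each abelian variety is isogenous to the
reduction of an abelian variety of CM type (Honda, Tate). So an abelian variety over the field with
`p ^ a` elements is modelled by `RedAV`: a finite product of CM types `(E i, Φ i)` with Weil numbers
`π i ∈ E i` (the Frobenius numbers) that satisfy the formula of Shimura and Taniyama; its cohomology of
degree `n`, with coefficients in an algebraically closed field `Ω`, consists of the alternating `n`-forms on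
`Ω ⊗ H_1`, on which the Frobenius endomorphism acts by `π`. We fix an isomorphism `ν` of the algebraic
closure of `ℚ_p` with `ℂ`; so each complex embedding `φ` of `E i` has a slope `λ`, the `p`-adic valuation
of `φ (π i)`, normalised by the value one of `p ^ a`. The slopes of complex conjugate embeddings have the sum
one. We choose `m > 0` such that all the numbers `s φ = m (2 λ - 1)` are integers (`IsSlopes`).

Let `Z` be such an abelian variety, of any dimension, with an exceptional slope for each simple factor
(`HasExceptionalSlopes`); that is, one of the following holds for each factor:

1. (`IsDominant`) for one pair of complex conjugate embeddings the number `|2 λ - 1|` is **larger than the sum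
   of these numbers for all other pairs**; or it is equal to this sum, and the norms of the Frobenius number
   to CM subfields `F` of its CM field `E` are not of supersingular type;
2. (`IsAdicDominant`) there is a prime number `ℓ` such that `s φ` is not divisible by `ℓ` for **exactly one pair**
   of complex conjugate embeddings, for a suitable `m`;
3. (`IsParityType`) the degree of `E` is divisible by four and, for a suitable `m`, `s φ` is even for exactly
   one pair of complex conjugate embeddings.

The CM fields `E` and `K` of any two factors have to be independent (`Independent`): for all complex
embeddings `φ` of `E` and `ψ` of `K` some automorphism of `ℂ` is the identity on `φ (E)` and the complex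
conjugation on `ψ (K)`; or one of the fields, say `E`, is of degree `2 ℓ`, `ℓ` an odd prime
number, `E` and `K` have no common imaginary quadratic subfield, and `K` is of degree smaller than `2 ℓ`, or
the maximal real subfield of `E` cannot be embedded in the Galois closure of `K` (`PrimeApart`); or `E` has the
degree `2 n`, `n` odd and prime to the degree of `K`, and contains an imaginary quadratic field which is not
contained in `K` (`QuadraticApart`).

`Homology Ω V` are data of motivic homology `M X i j = H_i^M(X, ℚ(j)) = CH_j(X, i - 2 j) ⊗ ℚ` and of
`ℓ`-adic homology `E X i j = H_i(X, ℚ_ℓ(j))` (coefficients extended to `Ω`) of schemes `X` of finite
type over a finite field (the elements of `V`), with the Frobenius and the regulator. Let `𝒢` be the smallest class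
(`Generated`) of such schemes that contains those with the homology groups of abelian varieties `Y` which are, over
an algebraic closure, isogenous to products of powers of factors of some `Z` as above and of a
supersingular abelian variety (`IsExceptionalAbelian`), that is closed under direct summands of finite sums of
twists of motives, and that contains all of a closed subscheme `W` of `X`, `X` and `X ∖ W` if it
contains two of them. It contains all products of curves with such Jacobians and of open subsets of such
curves, symmetric powers of them, and the singular and the open varieties with a stratification by
such varieties.

**Theorem.** Let `X` be a smooth variety of pure dimension `d` in `𝒢` (the theorem is true for all members). Then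
`H^i_M(X, ℚ(j)) = H_(2 d - i)^M(X, ℚ(d - j)) = M X (2 d - i) (d - j)` and the same for `ℓ`-adic
cohomology, and for all `i` and `j` the map `c^(i, j)` is injective: elements of `H^i_M(X, ℚ(j))`
which are linearly independent over `ℚ` have images in `H^i(X, ℚ_ℓ(j)) ⊗ Ω` which are linearly
independent over `Ω`.

**Examples.** (a) Abelian varieties of K3 type (one slope `0`, one slope `1`, all others `1/2`): the first part of
1; this is a theorem of Zarhin. (b) **Abelian varieties of `p`-rank two with all other slopes `1/2`**, and all
abelian varieties with only two pairs of slopes different from `1/2`, such that the norms of the Frobenius
number to CM subfields are not of supersingular type (this condition is only needed if `|2 λ - 1|` is the same for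
both pairs): 1. (c) Abelian varieties of `p`-rank one with all slopes `0 < λ < 1` congruent to `1/2` modulo
an odd prime number `ℓ`, for example `1/5` and `4/5` with `ℓ = 3`, or with the slopes `1/6` and `5/6`, here
`ℓ = 2`; with any multiplicities of these slopes: 2. (d) Almost ordinary abelian varieties of even dimension (a theorem of
Lenstra and Zarhin), and more generally those of even dimension with two slopes `1/2` and all other slopes with
odd denominators: 3.

**The conditions.** If the norm to a CM subfield `F ≠ E` is of supersingular type then there are Tate classes on
powers of the factor which are not combinations of products of classes of divisors. So, if the first
inequality is an equality, the condition on the norms cannot be omitted.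

**What was known.** The Tate conjecture for powers in the cases (a) and (d), see above; the passage from the Tate
conjecture to the injectivity of `c^(i, j)` and to the class `Generated` is due to Soulé, Geisser, Kahn and
Jannsen. The starting file `AlmostAllSlopeTypes` of this problem treats independent CM fields and almost all types
of slopes; `IndependentBlocks` and `PrimePowerDimension` (helper37) treat all or many slopes under conditions on
the dimension or on the Galois group. Here the dimension and the Galois group are arbitrary.

Properties of the theory of cycles that are used for the abelian varieties (`IsChow`,
`IsMotivic`): Poincaré duality, the formal properties of correspondences, the nilpotence of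
homologically trivial correspondences (Kimura), the operation of the Frobenius endomorphism on higher
Chow groups, the vanishing of the higher rational `K`-groups of a finite field (Quillen), and the
algebraicity of the classes in `Alg` (of which only products of classes of divisors matter here, theorem of
Tate).

Idea of the proof. A relation between the Frobenius eigenvalues, modulo the trivial ones, is an integral function
`f` on the set of the embeddings, odd under complex conjugation and orthogonal to all Galois translates of the
function `s`. If one value of `s` is dominant, for the usual or an `ℓ`-adic absolute value, then `f` is zero, as
one sees at a point where its absolute value is maximal. In the case of equality the function `f` is, where its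
absolute value is maximal, determined up to the sign by its value at one point; the group of the Galois
automorphisms which do not change it (operating on the right) belongs to a CM subfield, and the sums of `s` over
the embeddings with a given restriction to it are zero.
-/

set_option autoImplicit false

namespace Pool.Agent.Results.MP_b52861_ag.ExceptionalSlopes

open Pool.Agent.W495.TA Pool.Agent.W495.FM Pool.Agent.X303.TBDual Pool.Agent.T9h37.ES

/-- The maps `c^(i, j)` are injective for all `i` and `j` and all smooth `X` of pure dimension `d` generated
by abelian varieties whose simple factors have an exceptional slope. -/
theorem result (p : ℕ) [Fact p.Prime] (ν : PadicAlgCl p ≃+* ℂ) (Ω : Type) [Field Ω]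
    [IsAlgClosed Ω] [CharZero Ω] (V : Type) (T : Homology Ω V) (hT : IsHomology T) (X : V)
    (hX : Generated T (IsExceptionalAbelian p ν T) X) (d i j : ℤ) :
    RegInjective T X (2 * d - i) (d - j) :=
  (tb_exceptional hT hX _ _).2.1

end Pool.Agent.Results.MP_b52861_ag.ExceptionalSlopes
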