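import Pool.Agent.T9h41.XG.Chow

/-!
# An exponential gap for the higher Chow groups of varieties over finite fields

Let `X` be a smooth projective scheme over the field with `q` elements, `b` the dimension of its total
`ℓ`-adic cohomology, and `μ ≥ 0`. Let `d_μ (n)` be the dimension (a number or infinity) of the sum
`CH^*(X ^ n, μ)_ℚ` of the higher Chow groups of all codimensions. The question predicts that the maps
`c^{i,j}` with `2 j - i = μ` are injective for `X ^ n`: for `μ = 0`, independent cycles have independent
classes; for `μ > 0` the target is zero by weights, and the group is zero.

Theorem. (1) Let `m ≥ 1`, and suppose that `X ^ m` satisfies the Tate conjecture and that the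
Frobenius is semisimple at the Tate classes. If one of the maps `c^{i,j}` with `2 j - i = μ` is not
injective for `X ^ m` then, for ALL `N`,

  `d_μ ((2 N + 1) m) ≥ (b ^ m + 1) ^ (2 N) / (N + 1) ^ (b ^ (2 m) + 1)`.

So the higher Chow groups of the powers grow at an exponential rate larger than `b`, the rate of the
growth of the cohomology: a single counterexample forces exponentially many elements in the kernels.
A single inequality for one `N` implies that the maps `c^{i,j}` with `2 j - i = μ` are injective for
`X ^ m`.

(2) Suppose that all powers of `X` satisfy the Tate conjecture with semisimplicity. Then for each `μ` the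
following are equivalent: all maps `c^{i,j}` with `2 j - i = μ` are injective for all powers `X ^ n`;
`liminf d_μ (n) ^ (1 / n) ≤ b` (`RateLe`), that is, for all `a > b` one has `d_μ (n) ≤ a ^ n` for infinitely
many `n`. So for such `X` the conjecture is a question about the exponential growth rate of `K`-groups
only: `rate = b` or `rate > b`, and there is nothing in between.

For `m = 1` only the Tate conjecture for `X` itself is used, which is known unconditionally for many `X`
for which neither the finite-dimensionality of the motive in the sense of Kimura nor the conjecture is
known. For example, let `X` be any K3 surface over a finite field and `μ > 0`. The statement (1) with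
`b = 24` says: if `K_μ (X)_ℚ ≠ 0` (so that the conjecture of Parshin fails) then
`dim K_μ (X ^ (2 N + 1))_ℚ ≥ 25 ^ (2 N) / (N + 1) ^ 577` for all `N`. Similarly for surfaces with
`b_2 = ρ` (fake projective planes, surfaces of Godeaux or Campedelli, with any `μ`), and for their
powers.

The setting. `C` is the category of the smooth projective schemes over the finite field with the groups
`CH^*(Y × Z)_ℚ` (all codimensions) as morphisms (or its pseudo-abelian hull); it is a rigid symmetric
monoidal category in which all `h(X)` are self-dual, `T = h(X)`, `tp T n = h(X ^ n)`, and `𝟙_ C ⟶ tp T n`
is `CH^*(X ^ n)_ℚ`. `R` is the `ℓ`-adic cohomology, coefficients extended to an algebraic closure `K` of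
`ℚ_ℓ`; `IsPow` holds by Katz and Messing. `Fr n` is the correspondence which acts as the pull-back by the
Frobenius endomorphism of `X ^ n`. `chow M μ` is the functor `Y ↦ CH^*(Y, μ)_ℚ`, which is
`𝟙_ C ⟶ Y` for `μ = 0` (`IsHigherChow`: correspondences act on higher Chow groups, the Frobenius acts
on those of codimension `i` as `q ^ i`, and the groups of the point with `μ > 0` are zero by Quillen).
`IsTateSS` is the Tate conjecture with semisimplicity: all cohomology classes killed by a power of
`Fr - q ^ i` are combinations of classes of cycles (`classes`, `GenLeft`), and the same for functionals on the
cohomology, which is the same statement by Poincaré duality (`functionals`, `GenRight`); and the Frobenius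
endomorphism satisfies a polynomial with rational coefficients (`weil`, known by Deligne). A linear map
from the (one-dimensional) cohomology of the point is an element of the cohomology. No other
conjecture and no finite-dimensionality is assumed.

The proof. (a) Let `α_i`, `β_i` be dual bases of the cycles on `Y = X ^ m` modulo numerical equivalence,
`e = ∑ β_i × α_i`, and `P` a polynomial such that `P (Fr)` is the projector to the Tate classes in the
cohomology and the identity on `F (Y) = CH^*(Y, μ)_ℚ`. By the Tate conjecture `y = P (Fr) - e P (Fr)` is
homologically trivial, and it acts on `F (Y)` as the idempotent `1 - e`. If this is zero then `F (Y)` is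
the sum of copies of `F (pt)`, and the maps are injective. If not then `y` is a numerically trivial
correspondence which does not act in a nilpotent way. (b) The exponential growth, for all additive
functors `F` on rigid tensor categories and all numerically trivial `y : Y ⟶ Y` which are not nilpotent
on `F (Y)`: let `f = y q (y)` and `f'` be Fitting idempotents of `y` and of its transpose for the
operations on all factors of `(Y × Y) ^ N × Y`. Decompose `F` by the `2 ^ (2 N)` products of `f`, `1 - f` and
`f'`, `1 - f'`. If `f` and `f'` both occur `j` times then the summand is not zero, since the snake
identity recovers a power of `y` on `F (Y)`, and its dimension is at least the numerical rank of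
`Y ^ (2 (N - j))`, since `1 - f` is invisible for numerical equivalence; the latter is almost
`b (Y) ^ (2 (N - j))`. The sum of `binomial (N, j) ^ 2 b (Y) ^ (2 (N - j))` is almost `(b (Y) + 1) ^ (2 N)`.

The lemmas on numerical ranks are from the library of helper64 and others (files `N64.AF`), where it is
shown that the ratio of `dim F (X ^ n)` and the numerical rank tends to infinity in this case.
-/

set_option autoImplicit false

open CategoryTheory MonoidalCategory Module Filter
open Pool.Agent.Y112.SR Pool.Agent.Y112.KD Pool.Agent.N64.AF Pool.Agent.T9h41.XG

namespace Pool.Agent.Results.MP_b52861_ag.ExponentialGap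

universe v u w t

/-- **An exponential gap for higher Chow groups over finite fields.** -/
theorem result {C : Type u} [Category.{v} C] [Preadditive C] [MonoidalCategory C]
    [MonoidalPreadditive C] [SymmetricCategory C] [RightRigidCategory C]
    {Λ : Type t} [Field Λ] [CharZero Λ] [Linear Λ C] [MonoidalLinear Λ C]
    {K : Type w} [Field K] [IsAlgClosed K] [Algebra Λ K] (R : SuperRealisation C K)
    (T : C) [ExactPairing T T] (h : IsPow Λ R T) (q : ℕ) (hq : 1 < q)
    (Fr : ∀ n, tp T n ⟶ tp T n) (M : ℕ → (C ⥤ ModuleCat.{v} Λ)) (hM : IsHigherChow Λ q Fr M)
    (μ : ℕ) :
    (∀ m, IsTateSS Λ R q (Fr m) → ¬ CInjective Λ R M (tp T m) μ →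
      GrowsFast Λ (chow Λ M μ) T (bt R T) m) ∧
    ((∀ m, IsTateSS Λ R q (Fr m)) →
      ((∀ n, CInjective Λ R M (tp T n) μ) ↔ RateLe Λ (chow Λ M μ) T (bt R T))) :=
  ⟨fun m hT hn => part_one h hq hM μ m hT hn, fun hT => part_two h hq hM μ hT⟩

end Pool.Agent.Results.MP_b52861_ag.ExponentialGap
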