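import Pool.Agent.T9h37.BI.Main

/-!
# The conjecture of Beilinson for the higher Chow groups of the smooth varieties generated by abelian varieties
# whose factors split in independent blocks, for example of different odd prime dimensions

Over an algebraic closure of the field with `p` elements each abelian variety is isogenous to the
reduction of an abelian variety of CM type (Honda, Tate). So an abelian variety over the field with
`p ^ a` elements is modelled by `RedAV`: a finite product of CM types `(E i, Φ i)` with Weil numbers
`π i ∈ E i` (the Frobenius numbers) that satisfy the formula of Shimura and Taniyama; its cohomology of
degree `n`, with coefficients in an algebraically closed field `Ω`, consists of the alternating `n`-forms on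
`Ω ⊗ H_1`, on which the Frobenius endomorphism acts by `π`. We fix an isomorphism `ν` of the algebraic
closure of `ℚ_p` with `ℂ`.

Let `Z` be such an abelian variety whose factors are divided in **blocks** (`HasBlocks`) of one of the following
kinds:

1. (`IsPrimeNumber`) one factor **of odd prime dimension** `ℓ`, with any CM field `E` of degree `2 ℓ` and any
   slopes, such that for the imaginary quadratic subfields `F` of `E` (if there are any) the norm of the
   Frobenius number to `F` is not of supersingular type. So `E` contains no imaginary quadratic field, or
   the factor is ordinary, for example (`ℓ` is odd);
2. (`IsIsotypic`) **any number of factors with the same general CM field** `E`, not isogenous to each other, such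
   that the functions given by their slopes (minus `1 / 2`) are linearly independent over `ℚ`. Here `E`
   is general (`IsGeneral`) if it is of degree `2 ℓ`, `ℓ` an odd prime number, and contains no imaginary
   quadratic field, or if it is full: for any two complex embeddings, neither equal nor complex conjugate,
   some automorphism of `ℂ` fixes the first and conjugates the second one (for example, the
   Galois group of the normal closure of `E` is the group of all signed permutations);
3. (`IsSmall`) any number of factors of dimension at most three, where any two fields which are not Galois
   over `ℚ` have different Galois closures: for example all elliptic curves, abelian surfaces and threefolds
   with Galois CM fields, and for each Galois group of another kind one abelian surface or threefold for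
   each Galois closure;
4. one factor of dimension at most five.

The CM fields `E` and `K` of any two factors **in different blocks** have to be independent (`Apart`): for all complex
embeddings `φ` of `E` and `ψ` of `K` some automorphism of `ℂ` is the identity on `φ (E)` and the complex
conjugation on `ψ (K)`; or (`PrimeApart`) one of the fields, say `E`, is of degree `2 ℓ`, `ℓ` an odd prime
number, `E` and `K` have no common imaginary quadratic subfield, and `K` **is of degree smaller than** `2 ℓ`, or
the maximal real subfield of `E` cannot be embedded in the Galois closure of `K`.

`Homology Ω V` are data of motivic homology `M X i j = H_i^M(X, ℚ(j)) = CH_j(X, i - 2 j) ⊗ ℚ` and of
`ℓ`-adic homology `E X i j = H_i(X, ℚ_ℓ(j))` (coefficients extended to `Ω`) of schemes `X` of finite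
type over a finite field (the elements of `V`), with the Frobenius and the regulator. Let `𝒢` be the smallest class
(`Generated`) of such schemes that contains those with the homology groups of abelian varieties `Y` which are, over
an algebraic closure, isogenous to products of powers of factors of some `Z` as above and of a
supersingular abelian variety (`IsBlockAbelian`), that is closed under direct summands of finite sums of
twists of motives, and that contains all of a closed subscheme `W` of `X`, `X` and `X ∖ W` if it
contains two of them. It contains all products of curves with such Jacobians and of open subsets of such
curves, symmetric powers of them, and the singular and the open varieties with a stratification by
such varieties.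

**Theorem.** Let `X` be a smooth variety of pure dimension `d` in `𝒢` (the theorem is true for all members). Then
`H^i_M(X, ℚ(j)) = H_(2 d - i)^M(X, ℚ(d - j)) = M X (2 d - i) (d - j)` and the same for `ℓ`-adic
cohomology, and for all `i` and `j` the map `c^(i, j)` is injective: elements of `H^i_M(X, ℚ(j))`
which are linearly independent over `ℚ` have images in `H^i(X, ℚ_ℓ(j)) ⊗ Ω` which are linearly
independent over `Ω`.

**Examples.** (a) Abelian varieties `A_1, …, A_n` of odd prime dimensions `ℓ_i` with CM fields without imaginary
quadratic subfields, any Newton polygons, with the only condition that for equal dimensions
`ℓ_i = ℓ_k` the maximal real subfield of one of the two CM fields cannot be embedded in the Galois closure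
of the other one (or that the fields are isomorphic and the slopes linearly independent); all products of
powers of them, of supersingular abelian varieties, of all elliptic curves, of abelian surfaces with
Galois CM fields, and so on. **No** family of types or slopes is excluded.

(b) Ordinary abelian varieties of different odd prime dimensions with arbitrary CM fields, no two of which
have a common imaginary quadratic subfield.

(c) Let `E` be a general CM field of degree `2 g` and `p` a prime number which splits completely in `E`. The
ordinary abelian varieties with the CM field `E` correspond (up to isogeny) to the CM types, that is to sign
functions; any `r ≤ g` of them with linearly independent sign functions form a block. If the sign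
functions are linearly dependent then there are multiplicative relations between the eigenvalues of different
factors and Tate classes on the products of powers which are not combinations of products of classes
of divisors, so the condition of linear independence cannot be omitted here.

**What was known.** For abelian varieties of prime dimension the Tate conjecture is due to Tankeev, for products of
elliptic curves to Spiess; the passage from the Tate conjecture to the injectivity of `c^(i, j)` and to the
class `Generated` is due to Soulé, Geisser, Kahn and Jannsen. The starting file `AlmostAllSlopeTypes` of this problem
treats pairwise independent CM fields with one type of slopes for each field, for almost all types. New
to our knowledge are: the independence of abelian varieties of different prime dimensions without any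
condition on Galois groups, several nonisogenous factors with the same CM field, and the combination
with arbitrary blocks.

Properties of the theory of cycles that are used for the abelian varieties (`IsChow`,
`IsMotivic`): Poincaré duality, the formal properties of correspondences, the nilpotence of
homologically trivial correspondences (Kimura), the operation of the Frobenius endomorphism on higher
Chow groups, the vanishing of the higher rational `K`-groups of a finite field (Quillen), and the
algebraicity of the classes in `Alg` (products of classes of divisors, theorem of Tate; for the blocks of the
kinds 3 and 4 also classes of Weil type on abelian varieties of dimension four and six, theorems of Markman).

Idea of the proof. The valuations of the conjugates of a Frobenius eigenvalue, minus the mean value, are a function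
on a Galois group `G`. The functions of independent factors are orthogonal, as they are odd with respect
to an element of `G` which fixes the other one; so the relations split in relations on the blocks. For
a field `E` of degree `2 ℓ` and a field `K` one uses the normal subgroup which fixes all embeddings of
`K`: its orbits on the `2 ℓ` embeddings of `E` have `1`, `ℓ` or `2 ℓ` elements; in the case `ℓ` the scalar
product is a semi-invariant function, and it defines a common imaginary quadratic subfield. A
field of degree `2 ℓ` without imaginary quadratic subfields is full: otherwise there is an invariant
operator on the odd functions on the set of embeddings which is not a scalar, it has a rational
eigenvalue as it commutes with an element of order `ℓ`, and the eigenspace or the image is a line, which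
defines an imaginary quadratic subfield.
-/

set_option autoImplicit false

namespace Pool.Agent.Results.MP_b52861_ag.IndependentBlocks

open Pool.Agent.W495.TA Pool.Agent.W495.FM Pool.Agent.X303.TBDual Pool.Agent.T9h37.BI

/-- The maps `c^(i, j)` are injective for all `i` and `j` and all smooth `X` of pure dimension `d` generated
by abelian varieties whose factors split in independent blocks. -/
theorem result (p : ℕ) [Fact p.Prime] (ν : PadicAlgCl p ≃+* ℂ) (Ω : Type) [Field Ω]
    [IsAlgClosed Ω] [CharZero Ω] (V : Type) (T : Homology Ω V) (hT : IsHomology T) (X : V)
    (hX : Generated T (IsBlockAbelian p ν T) X) (d i j : ℤ) :
    RegInjective T X (2 * d - i) (d - j) :=
  (tb_blocks hT hX _ _).2.1

end Pool.Agent.Results.MP_b52861_ag.IndependentBlocks
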