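import Pool.Agent.T9h37.PP.Main

/-!
# The conjecture of Beilinson for the higher Chow groups of the smooth varieties generated by abelian varieties
# whose simple factors have CM fields of degree two times a power of a prime number

Over an algebraic closure of the field with `p` elements each abelian variety is isogenous to the
reduction of an abelian variety of CM type (Honda, Tate). So an abelian variety over the field with
`p ^ a` elements is modelled by `RedAV`: a finite product of CM types `(E i, Φ i)` with Weil numbers
`π i ∈ E i` (the Frobenius numbers) that satisfy the formula of Shimura and Taniyama; its cohomology of
degree `n`, with coefficients in an algebraically closed field `Ω`, consists of the alternating `n`-forms on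
`Ω ⊗ H_1`, on which the Frobenius endomorphism acts by `π`. We fix an isomorphism `ν` of the algebraic
closure of `ℚ_p` with `ℂ`; so each complex embedding `φ` of `E i` has a slope `λ`, the `p`-adic valuation
of `φ (π i)`, normalised by the value one of `p ^ a`. We choose `m > 0` such that all the numbers
`s φ = m (2 λ - 1)` are integers (`IsSlopes`).

Let `Z` be such an abelian variety whose simple factors are of two kinds (`HasPrimePowerFactors`):

1. (`IsOddType`) **the CM field `E` has degree `2 ℓ ^ n`, `ℓ` an odd prime number, and contains an imaginary
   quadratic field** `ℚ(√-d)`, which is not contained in the CM field of any other factor, and the sum of the
   numbers `s φ` over the embeddings `φ` which extend one embedding of `ℚ(√-d)` **is not divisible by** `ℓ`;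
2. (`IsTwoType`) **the CM field has degree** `2 ^ (n + 1)`, the number of the complex conjugate pairs of
   embeddings with `s φ` odd is odd, and the CM fields of different factors of this kind are independent
   (`Indep`: for all complex embeddings `φ` and `ψ` of the two fields some automorphism of `ℂ` is the
   identity on the image of `φ` and the complex conjugation on the image of `ψ`).

The prime numbers `ℓ` and the exponents `n` can be different for different factors. **Nothing is assumed about
the Galois groups of the fields of the first kind, or about the intersections or the composites of these
fields, except that the imaginary quadratic subfields are different.**

`Homology Ω V` are data of motivic homology `M X i j = H_i^M(X, ℚ(j)) = CH_j(X, i - 2 j) ⊗ ℚ` and of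
`ℓ`-adic homology `E X i j = H_i(X, ℚ_ℓ(j))` (coefficients extended to `Ω`) of schemes `X` of finite
type over a finite field (the elements of `V`), with the Frobenius and the regulator. Let `𝒢` be the smallest class
(`Generated`) of such schemes that contains those with the homology groups of abelian varieties `Y` which are, over
an algebraic closure, isogenous to products of powers of factors of some `Z` as above and of a
supersingular abelian variety (`IsPrimePowerAbelian`), that is closed under direct summands of finite sums of
twists of motives, and that contains all of a closed subscheme `W` of `X`, `X` and `X ∖ W` if it
contains two of them. It contains all products of curves with such Jacobians and of open subsets of such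
curves, symmetric powers of them, and the singular and the open varieties with a stratification by
such varieties.

**Theorem.** Let `X` be a smooth variety of pure dimension `d` in `𝒢` (the theorem is true for all members). Then
`H^i_M(X, ℚ(j)) = H_(2 d - i)^M(X, ℚ(d - j)) = M X (2 d - i) (d - j)` and the same for `ℓ`-adic
cohomology, and for all `i` and `j` the map `c^(i, j)` is injective: elements of `H^i_M(X, ℚ(j))`
which are linearly independent over `ℚ` have images in `H^i(X, ℚ_ℓ(j)) ⊗ Ω` which are linearly
independent over `Ω`.

**Examples.** (a) Let `A` be an ordinary abelian variety of dimension `g = ℓ ^ n`, `ℓ` odd, with complex
multiplication by a field which contains an imaginary quadratic field `F`; then `p` splits in `F`, and the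
`p`-divisible group of `A` is the product of two parts, of dimensions `r` and `g - r`. We can take `m = 1`, and the
sum is `2 r - g`. So the condition is that `r` is not divisible by `ℓ`. More generally all slopes with
denominators prime to `ℓ` are allowed, `r` being the dimension of one of the two parts of the `p`-divisible group.
The theorem is about all products of powers of such abelian varieties `A_1, …, A_k`, of dimensions
`ℓ_i ^ (n_i)`, with different imaginary quadratic fields.

(b) Abelian varieties of dimension `2 ^ n` with commutative endomorphism algebra, all slopes `0`, `1/2`, `1`,
and odd `p`-rank.

**The conditions.** If the CM fields of two factors contain the same imaginary quadratic field `F` then the norms to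
`F` of powers of the two Frobenius numbers are multiplicatively dependent, and there are Tate classes on the
products of powers which are not combinations of products of classes of divisors; so the imaginary quadratic
fields have to be different. If `n > 1` and the slopes are equally distributed over the embeddings of a
CM field `E' ⊆ E` of degree `2 ℓ` which extend an embedding of `F` then the sum is divisible by `ℓ`, and there
are such classes too.

**What was known.** For simple abelian varieties of prime dimension the Tate conjecture is due to Tankeev, for
products of elliptic curves to Spiess, for almost ordinary abelian varieties of even dimension to Lenstra and
Zarhin; the passage from the Tate conjecture to the injectivity of `c^(i, j)` and to the class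
`Generated` is due to Soulé, Geisser, Kahn and Jannsen. The starting file `AlmostAllSlopeTypes` and
`IndependentBlocks` (helper37) of this problem treat independent CM fields; there the dimension of a factor is
prime or at most five, or almost all types are considered, or the Galois group is large.

Properties of the theory of cycles that are used for the abelian varieties (`IsChow`,
`IsMotivic`): Poincaré duality, the formal properties of correspondences, the nilpotence of
homologically trivial correspondences (Kimura), the operation of the Frobenius endomorphism on higher
Chow groups, the vanishing of the higher rational `K`-groups of a finite field (Quillen), and the
algebraicity of the classes in `Alg` (of which only products of classes of divisors matter here, theorem of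
Tate).

Idea of the proof. A relation between the Frobenius eigenvalues, modulo the trivial ones, is an integral function
`f` on the set of the embeddings, odd under complex conjugation and orthogonal to all Galois translates of the
function `s`. Let `P` be a Sylow subgroup for `ℓ` of the Galois group. As `P` is an `ℓ`-group, it has a nonzero fixed
vector in the reduction modulo `ℓ` of the group of these functions, if this group is not zero. As the number of
the embeddings of `E i` which extend one embedding of `F i` is a power of `ℓ`, `P` acts transitively on
them; so a fixed vector is constant there. As the quadratic characters of the `F i` are different and so
linearly independent modulo `ℓ`, the sums of `s` over these embeddings are divisible by `ℓ` for some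
factor, a contradiction. Factors with different prime numbers `ℓ` are independent as their degrees are
coprime.
-/

set_option autoImplicit false

namespace Pool.Agent.Results.MP_b52861_ag.PrimePowerDimension

open Pool.Agent.W495.TA Pool.Agent.W495.FM Pool.Agent.X303.TBDual Pool.Agent.T9h37.PP

/-- The maps `c^(i, j)` are injective for all `i` and `j` and all smooth `X` of pure dimension `d` generated
by abelian varieties whose simple factors have CM fields of degree two times a power of a prime number, as
above. -/
theorem result (p : ℕ) [Fact p.Prime] (ν : PadicAlgCl p ≃+* ℂ) (Ω : Type) [Field Ω]
    [IsAlgClosed Ω] [CharZero Ω] (V : Type) (T : Homology Ω V) (hT : IsHomology T) (X : V)
    (hX : Generated T (IsPrimePowerAbelian p ν T) X) (d i j : ℤ) :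
    RegInjective T X (2 * d - i) (d - j) :=
  (tb_primePower hT hX _ _).2.1

end Pool.Agent.Results.MP_b52861_ag.PrimePowerDimension
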